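import Pool.Agent.N142.CD.MOM
import Pool.Agent.N142.CD.CS
import Pool.Agent.N142.CD.AP
import Pool.Agent.N142.CD.FOU
import Pool.Agent.N142.CD.LCH

/-!
# Sumsets of sets invariant under dilations (helper933): core
-/

set_option autoImplicit false
set_option linter.all false

namespace Pool.Agent.Run7.h933.INVS

open Finset Pool.Agent.N142.CD
open scoped Pointwise

variable {N : ℕ} [NeZero N]

/-- `v` is a unit and multiplication by `v` preserves `A` -/
def Pres (A : Finset (ZMod N)) (v : ZMod N) : Prop := IsUnit v ∧ ∀ a, v * a ∈ A ↔ a ∈ A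

/-- the elements `v γ`, `v ∈ V`, are dissociated -/
def Diss (V : Finset (ZMod N)) (γ : ZMod N) : Prop :=
  ∀ e : ZMod N → ℤ, (∀ v, e v = 0 ∨ e v = 1 ∨ e v = -1) →
    ∑ v ∈ V, (e v : ZMod N) * (v * γ) = 0 → ∀ v ∈ V, e v = 0

theorem reidx {M : Type*} [AddCommMonoid M] {A : Finset (ZMod N)} {v : ZMod N} (hv : Pres A v)
    (f : ZMod N → M) : ∑ a ∈ A, f (v * a) = ∑ a ∈ A, f a := by
  refine sum_nbij (fun a => v * a) (fun a ha => (hv.2 a).2 ha) ?_ ?_ (fun a _ => rfl)
  · intro a _ b _ hab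
    exact hv.1.mul_left_cancel hab
  · intro a ha
    obtain ⟨w, hw⟩ := hv.1.exists_right_inv
    refine ⟨w * a, ?_, ?_⟩
    · rw [mem_coe, ← hv.2, ← mul_assoc, hw, one_mul]
      exact ha
    · show v * (w * a) = a
      rw [← mul_assoc, hw, one_mul]

theorem Pres.add {A : Finset (ZMod N)} {v : ZMod N} (hv : Pres A v) : Pres (A + A) v := by
  refine ⟨hv.1, fun s => ⟨fun h => ?_, fun h => ?_⟩⟩
  · obtain ⟨a, ha, b, hb, hab⟩ := mem_add.1 h
    obtain ⟨w, hw⟩ := hv.1.exists_right_inv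
    have h1 : s = w * a + w * b := by
      rw [← mul_add, hab, ← mul_assoc, mul_comm w v, hw, one_mul]
    rw [h1]
    refine add_mem_add ?_ ?_
    · rw [← hv.2, ← mul_assoc, hw, one_mul]; exact ha
    · rw [← hv.2, ← mul_assoc, hw, one_mul]; exact hb
  · obtain ⟨a, ha, b, hb, hab⟩ := mem_add.1 h
    rw [← hab, mul_add]
    exact add_mem_add ((hv.2 a).2 ha) ((hv.2 b).2 hb)

theorem Fn_inv {A S : Finset (ZMod N)} {v : ZMod N} (hA : Pres A v) (hS : Pres S v) (x : ZMod N) :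
    Fn A S (v * x) = Fn A S x := by
  unfold Fn
  congr 1
  rw [← reidx hA]
  refine sum_congr rfl fun a _ => ?_
  rw [← mul_add]
  simp only [hS.2]

theorem gn_inv {A S : Finset (ZMod N)} {v : ZMod N} (hA : Pres A v) (hS : Pres S v) (y : ZMod N) :
    gn A S (v * y) = gn A S y := by
  unfold gn
  congr 1
  rw [← reidx hA]
  refine sum_congr rfl fun a _ => ?_
  rw [← mul_add, Fn_inv hA hS]

/-- the almost periods of `g` -/
noncomputable def Per (A S : Finset (ZMod N)) (δ : ℝ) : Finset (ZMod N) := by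
  classical
  exact univ.filter fun t => ∀ y, |gn A S (y + t) - gn A S y| ≤ δ

theorem mem_Per (A S : Finset (ZMod N)) (δ : ℝ) (t : ZMod N) :
    t ∈ Per A S δ ↔ ∀ y, |gn A S (y + t) - gn A S y| ≤ δ := by
  classical
  unfold Per
  rw [mem_filter]
  simp

theorem Per_inv {A S : Finset (ZMod N)} {v : ZMod N} (hA : Pres A v) (hS : Pres S v) (δ : ℝ) :
    Pres (Per A S δ) v := by
  refine ⟨hA.1, fun t => ?_⟩
  rw [mem_Per, mem_Per]
  constructor
  · intro h y
    have h1 := h (v * y)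
    rw [← mul_add, gn_inv hA hS, gn_inv hA hS] at h1
    exact h1
  · intro h y
    obtain ⟨w, hw⟩ := hA.1.exists_right_inv
    have h1 : y = v * (w * y) := by rw [← mul_assoc, hw, one_mul]
    have h2 := h (w * y)
    rw [h1, ← mul_add, gn_inv hA hS, gn_inv hA hS]
    exact h2

theorem Per_diff {A S : Finset (ZMod N)} {δ : ℝ} {s s' : ZMod N} (h : s ∈ Per A S δ)
    (h' : s' ∈ Per A S δ) (y : ZMod N) : |gn A S (y + s - s') - gn A S y| ≤ 2 * δ := by
  rw [mem_Per] at h h'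
  have h1 := h (y - s')
  have h2 := h' (y - s')
  rw [sub_add_cancel] at h2
  have e : y - s' + s = y + s - s' := by ring
  rw [e] at h1
  have a1 := abs_le.1 h1
  have a2 := abs_le.1 h2
  rw [abs_le]
  constructor <;> linarith [a1.1, a1.2, a2.1, a2.2]

theorem le_card_Per {A S T : Finset (ZMod N)} {δ : ℝ} 
    (h : ∀ s ∈ T, ∀ s' ∈ T, ∀ y : ZMod N, |gn A S (y + s - s') - gn A S y| ≤ δ) :
    T.card ≤ (Per A S δ).card := by
  rcases T.eq_empty_or_nonempty with rfl | ⟨t₀, ht₀⟩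
  · simp
  · refine card_le_card_of_injOn (fun t => t - t₀) ?_ ?_
    · intro t ht
      rw [mem_coe, mem_Per]
      intro y
      have := h t ht t₀ ht₀ y
      rw [add_sub_assoc] at this
      exact this
    · intro a _ b _ hab
      exact sub_left_injective hab

theorem hat_inv {T : Finset (ZMod N)} {v : ZMod N} (hT : Pres T v) (γ : ZMod N) :
    ∑ t ∈ T, (ψ ((v * γ) * t) : ℂ) = ∑ t ∈ T, ψ (γ * t) := by
  rw [← reidx hT fun t => (ψ (γ * t) : ℂ)]
  refine sum_congr rfl fun t _ => ?_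
  congr 1
  ring

theorem DD_univ {δ : ZMod N} (h : LCH.DD (univ : Finset (ZMod N)) δ) : δ = 0 := by
  by_contra hδ
  unfold LCH.DD at h
  have h1 : ∑ s : ZMod N, (ψ (δ * s) : ℂ) = 0 := by
    have h2 := FOU.ortho δ
    rw [if_neg hδ] at h2
    rw [← h2]
    refine sum_congr rfl fun s _ => ?_
    rw [mul_comm]
  rw [h1, norm_zero, card_univ, ZMod.card] at h
  have : (0 : ℝ) < N := by exact_mod_cast NeZero.pos N
  linarith

/-- Chang's theorem and the invariance: the spectrum is trivial -/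
theorem spec_trivial {T V : Finset (ZMod N)} {γ : ZMod N} (hT : T.Nonempty)
    (hV : ∀ v ∈ V, Pres T v) (hd : Diss V γ)
    (hc : 8 * Real.log (4 * N / T.card) < V.card) :
    ‖∑ t ∈ T, (ψ (γ * t) : ℂ)‖ < (T.card : ℝ) / 2 := by
  classical
  by_contra hcon
  push Not at hcon
  set Λ : Finset (ZMod N) := V.image fun v => v * γ with hΛ
  have hinj : Set.InjOn (fun v : ZMod N => v * γ) (V : Set (ZMod N)) := by
    intro v hv w hw hvw
    by_contra hne
    have h1 := hd (fun z => if z = v then 1 else if z = w then -1 else 0) (fun z => by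
      by_cases h : z = v
      · simp [h]
      · by_cases h' : z = w
        · simp [h', Ne.symm hne]
        · simp [h, h']) (by
      have h2 : ∑ z ∈ V, (((if z = v then 1 else if z = w then -1 else 0 : ℤ)) : ZMod N) * (z * γ) =
          ∑ z ∈ V, ((if z = v then v * γ else 0) - (if z = w then w * γ else 0)) := by
        refine sum_congr rfl fun z _ => ?_
        by_cases h : z = v
        · subst h
          simp [hne]
        · by_cases h' : z = w
          · subst h'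
            simp [h]
          · simp [h, h']
      rw [h2, sum_sub_distrib, sum_ite_eq' V v, sum_ite_eq' V w, if_pos (mem_coe.1 hv), if_pos (mem_coe.1 hw)]
      exact sub_eq_zero.2 hvw) v (mem_coe.1 hv)
    simp at h1
  have hcard : Λ.card = V.card := card_image_of_injOn hinj
  have hSp : ∀ z ∈ Λ, (T.card : ℝ) / 2 ≤ ‖∑ x ∈ T, ψ (z * x)‖ := by
    intro z hz
    obtain ⟨v, hv, rfl⟩ := mem_image.1 hz
    rw [hat_inv (hV v hv)]
    exact hcon
  have hDis : LCH.Dis (univ : Finset (ZMod N)) Λ := by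
    intro e he h z hz
    have h0 := DD_univ h
    obtain ⟨v, hv, rfl⟩ := mem_image.1 hz
    rw [hΛ, sum_image hinj] at h0
    exact hd (fun v => e (v * γ)) (fun v => he _) h0 v hv
  have h1 := LCH.card_bound T univ univ univ Λ 0 Λ.card hT univ_nonempty (fun _ _ => mem_univ _)
    (fun _ _ => mem_univ _) (fun _ _ _ _ => mem_univ _) (by
      have : (0 : ℝ) ≤ (univ : Finset (ZMod N)).card := Nat.cast_nonneg _
      linarith) le_rfl hSp hDis
  rw [hcard, card_univ, ZMod.card] at h1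
  linarith

/-- the averages are almost constant -/
theorem gj_near (A S T : Finset (ZMod N)) (K : ℝ) (l : ℕ) (hA : A.Nonempty) (hK : 1 ≤ K)
    (hS : (S.card : ℝ) ≤ K * A.card) (hTn : T.Nonempty) (y : ZMod N)
    (hy : ∀ γ : ZMod N, γ * y ≠ 0 → ‖∑ t ∈ T, (ψ (γ * t) : ℂ)‖ < (T.card : ℝ) / 2) :
    |FOU.gj A S T l y - FOU.gj A S T l 0| ≤ 2 * K / 4 ^ l := by
  have hN : (0 : ℝ) < N := by
    have := NeZero.pos N
    exact_mod_cast this
  have hA0 : (0 : ℝ) < A.card := by exact_mod_cast hA.card_pos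
  have hT0 : (0 : ℝ) < T.card := by exact_mod_cast hTn.card_pos
  have e : ((FOU.gj A S T l y - FOU.gj A S T l 0 : ℝ) : ℂ) =
      (∑ γ : ZMod N, FOU.cf A S γ * ((FOU.ww T γ : ℝ) : ℂ) ^ l * (ψ (γ * y) - 1)) / N := by
    rw [Complex.ofReal_sub, FOU.gj_eq, FOU.gj_eq, ← sub_div, ← sum_sub_distrib]
    congr 1
    refine sum_congr rfl fun γ _ => ?_
    have : ψ (γ * (0 : ZMod N)) = 1 := by
      rw [mul_zero]
      exact AddChar.map_zero_eq_one _
    rw [this]
    ring
  have hb : ∀ γ : ZMod N, ‖FOU.cf A S γ * ((FOU.ww T γ : ℝ) : ℂ) ^ l * (ψ (γ * y) - 1)‖ ≤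
      ‖FOU.hh A γ‖ ^ 2 * (2 * K / (4 ^ l * A.card)) := by
    intro γ
    have h1 : ‖FOU.cf A S γ‖ ≤ ‖FOU.hh A γ‖ ^ 2 * (K / A.card) := by
      unfold FOU.cf
      rw [norm_div, norm_mul, norm_pow, norm_pow, Complex.norm_natCast]
      have h2 : ‖FOU.hh S (-γ)‖ ≤ K * A.card := (FOU.hh_norm_le S (-γ)).trans hS
      rw [div_le_iff₀ (by positivity)]
      calc ‖FOU.hh A γ‖ ^ 2 * ‖FOU.hh S (-γ)‖ ≤ ‖FOU.hh A γ‖ ^ 2 * (K * A.card) :=
            mul_le_mul_of_nonneg_left h2 (by positivity)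
        _ = _ := by field_simp
    have h3 : FOU.ww T γ ^ l * ‖ψ (γ * y) - 1‖ ≤ 2 / 4 ^ l := by
      by_cases hγ : γ * y = 0
      · rw [hγ]
        have h4 : (ψ (0 : ZMod N) : ℂ) = 1 := AddChar.map_zero_eq_one _
        rw [h4, sub_self, norm_zero, mul_zero]
        positivity
      · have h4 : FOU.ww T γ ≤ 1 / 4 := by
          unfold FOU.ww
          rw [div_le_iff₀ (by positivity)]
          have h5 : ‖FOU.hh T γ‖ ≤ (T.card : ℝ) / 2 := (hy γ hγ).le
          calc ‖FOU.hh T γ‖ ^ 2 ≤ ((T.card : ℝ) / 2) ^ 2 := pow_le_pow_left₀ (norm_nonneg _) h5 2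
            _ = _ := by ring
        have h6 : ‖ψ (γ * y) - 1‖ ≤ 2 := by
          calc ‖ψ (γ * y) - 1‖ ≤ ‖ψ (γ * y)‖ + ‖(1 : ℂ)‖ := norm_sub_le _ _
            _ = 2 := by rw [FOU.psi_norm, norm_one]; norm_num
        calc FOU.ww T γ ^ l * ‖ψ (γ * y) - 1‖ ≤ (1 / 4) ^ l * 2 :=
              mul_le_mul (pow_le_pow_left₀ (FOU.ww_nonneg T γ) h4 l) h6 (norm_nonneg _)
                (by positivity)
          _ = 2 / 4 ^ l := by
              rw [div_pow, one_pow]
              ring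
    rw [norm_mul, norm_mul, norm_pow, Complex.norm_real, Real.norm_of_nonneg (FOU.ww_nonneg T γ),
      mul_assoc]
    calc ‖FOU.cf A S γ‖ * (FOU.ww T γ ^ l * ‖ψ (γ * y) - 1‖)
        ≤ (‖FOU.hh A γ‖ ^ 2 * (K / A.card)) * (2 / 4 ^ l) :=
          mul_le_mul h1 h3 (mul_nonneg (pow_nonneg (FOU.ww_nonneg T γ) l) (norm_nonneg _))
            (by positivity)
      _ = _ := by field_simp
  have h7 : ‖((FOU.gj A S T l y - FOU.gj A S T l 0 : ℝ) : ℂ)‖ ≤ 2 * K / 4 ^ l := by
    rw [e, norm_div, Complex.norm_natCast, div_le_iff₀ hN]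
    calc ‖∑ γ : ZMod N, FOU.cf A S γ * ((FOU.ww T γ : ℝ) : ℂ) ^ l * (ψ (γ * y) - 1)‖
        ≤ ∑ γ : ZMod N, ‖FOU.cf A S γ * ((FOU.ww T γ : ℝ) : ℂ) ^ l * (ψ (γ * y) - 1)‖ :=
          norm_sum_le _ _
      _ ≤ ∑ γ : ZMod N, ‖FOU.hh A γ‖ ^ 2 * (2 * K / (4 ^ l * A.card)) :=
          sum_le_sum fun γ _ => hb γ
      _ = 2 * K / 4 ^ l * N := by
          rw [← sum_mul, FOU.parseval]
          field_simp
  rwa [Complex.norm_real, Real.norm_eq_abs] at h7

/-- the mean of `g` -/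
theorem sum_gn (A S : Finset (ZMod N)) (hA : A.Nonempty) : ∑ y, gn A S y = S.card := by
  have hA0 : (0 : ℝ) < A.card := by exact_mod_cast hA.card_pos
  unfold gn
  rw [← sum_div, sum_comm]
  have h1 : ∀ x : ZMod N, ∑ y, Fn A S (x + y) = S.card := by
    intro x
    unfold Fn
    rw [← sum_div, sum_comm]
    have h2 : ∀ a ∈ A, ∑ y : ZMod N, (if x + y + a ∈ S then (1 : ℝ) else 0) = S.card := by
      intro a _
      have h3 : ∑ y : ZMod N, (if x + y + a ∈ S then (1 : ℝ) else 0) =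
          ∑ z : ZMod N, (if z ∈ S then (1 : ℝ) else 0) := by
        rw [← Equiv.sum_comp (Equiv.addRight (x + a)) fun z : ZMod N => if z ∈ S then (1 : ℝ) else 0]
        refine sum_congr rfl fun y _ => ?_
        have e : (Equiv.addRight (x + a)) y = x + y + a := by
          simp only [Equiv.coe_addRight]
          ring
        rw [e]
      rw [h3, ← sum_filter]
      simp
    rw [sum_congr rfl h2, sum_const, nsmul_eq_mul]
    field_simp
  rw [sum_congr rfl fun x _ => h1 x, sum_const, nsmul_eq_mul]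
  field_simp

/-- the main lemma -/
theorem main_lemma : ∃ C₀ : ℝ, 0 < C₀ ∧ ∀ (N : ℕ) [NeZero N] (A : Finset (ZMod N)) (K : ℝ)
    (l l' : ℕ), A.Nonempty → 1 ≤ K → ((A + A).card : ℝ) ≤ K * A.card → 1 ≤ l' → ∀ y : ZMod N,
    (∀ γ : ZMod N, γ * y ≠ 0 → ∃ V : Finset (ZMod N), (∀ v ∈ V, Pres A v) ∧ Diss V γ ∧
      8 * (Real.log (4 * N / A.card) + C₀ * l' ^ 2 * Real.log (2 * K) ^ 2) < V.card) →
    1 - l / (4 * l') - 2 * K / 4 ^ l ≤ gn A (A + A) y := by
  obtain ⟨C₀, hC₀, hAP⟩ := t_AP (t_CS t_MOM)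
  refine ⟨C₀, hC₀, ?_⟩
  intro N _ A K l l' hA hK hAA hl' y hrich
  have hl0 : (0 : ℝ) < l' := by exact_mod_cast hl'
  obtain ⟨T, hTA, hT1, hT2⟩ := hAP N A K l' hA hK hAA hl'
  have hA0 : (0 : ℝ) < A.card := by exact_mod_cast hA.card_pos
  have hN0 : (0 : ℝ) < N := by exact_mod_cast NeZero.pos N
  set P := Per A (A + A) (1 / (16 * l')) with hP
  have hPc : T.card ≤ P.card := le_card_Per hT2
  have hPcr : (A.card : ℝ) ≤ Real.exp (C₀ * l' ^ 2 * Real.log (2 * K) ^ 2) * P.card := by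
    refine hT1.trans (mul_le_mul_of_nonneg_left ?_ (Real.exp_pos _).le)
    exact_mod_cast hPc
  have hP0 : (0 : ℝ) < P.card := by
    by_contra h
    have h1 : (P.card : ℝ) = 0 := le_antisymm (not_lt.1 h) (Nat.cast_nonneg _)
    rw [h1, mul_zero] at hPcr
    linarith
  have hPn : P.Nonempty := card_pos.1 (by exact_mod_cast hP0)
  have hlog : Real.log (4 * N / P.card) ≤
      Real.log (4 * N / A.card) + C₀ * l' ^ 2 * Real.log (2 * K) ^ 2 := by
    have h1 : 4 * N / P.card ≤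
        4 * N / A.card * Real.exp (C₀ * l' ^ 2 * Real.log (2 * K) ^ 2) := by
      rw [div_mul_eq_mul_div, div_le_div_iff₀ hP0 hA0]
      calc 4 * (N : ℝ) * A.card ≤ 4 * N * (Real.exp (C₀ * l' ^ 2 * Real.log (2 * K) ^ 2) * P.card) :=
            mul_le_mul_of_nonneg_left hPcr (by positivity)
        _ = _ := by ring
    have h2 := Real.log_le_log (by positivity) h1
    rwa [Real.log_mul (by positivity) (Real.exp_pos _).ne', Real.log_exp] at h2
  have hspec : ∀ γ : ZMod N, γ * y ≠ 0 → ‖∑ t ∈ P, (ψ (γ * t) : ℂ)‖ < (P.card : ℝ) / 2 := by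
    intro γ hγ
    obtain ⟨V, hV, hd, hc⟩ := hrich γ hγ
    refine spec_trivial hPn (fun v hv => Per_inv (hV v hv) (hV v hv).add _) hd ?_
    linarith
  have hper : ∀ s ∈ P, ∀ s' ∈ P, ∀ y : ZMod N,
      |gn A (A + A) (y + s - s') - gn A (A + A) y| ≤ 2 * (1 / (16 * l')) :=
    fun s hs s' hs' y => Per_diff hs hs' y
  have h1 := FOU.gj_diff A (A + A) P hPn _ hper l y
  have h2 := FOU.gj_diff A (A + A) P hPn _ hper l 0
  have h3 := gj_near A (A + A) P K l hA hK hAA hPn y hspec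
  have h4 := FOU.gn_zero A hA
  rw [h4] at h2
  have h5 : (l : ℝ) * (2 * (1 / (16 * l'))) = l / (4 * l') / 2 := by
    field_simp
    ring
  rw [h5] at h1 h2
  have a1 := abs_le.1 h1
  have a2 := abs_le.1 h2
  have a3 := abs_le.1 h3
  linarith [a1.1, a1.2, a2.1, a2.2, a3.1, a3.2]

end Pool.Agent.Run7.h933.INVS
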