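import Pool.Agent.Run7.h933.INVS.Core

/-!
# Dilations by powers of an integer, and by roots of unity: independence (helper933)
-/

set_option autoImplicit false
set_option linter.all false

namespace Pool.Agent.Run7.h933.INVS

open Finset

theorem int_indep (b : ℤ) (hb : 2 ≤ b) : ∀ (D : ℕ) (e : ℕ → ℤ),
    (∀ i, e i = 0 ∨ e i = 1 ∨ e i = -1) → ∑ i ∈ range D, e i * b ^ i = 0 → ∀ i < D, e i = 0 := by
  intro D
  induction D with
  | zero => intro e _ _ i hi; omega
  | succ D ih =>
    intro e he h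
    rw [sum_range_succ'] at h
    have h1 : ∑ i ∈ range D, e (i + 1) * b ^ (i + 1) = b * ∑ i ∈ range D, e (i + 1) * b ^ i := by
      rw [mul_sum]
      refine sum_congr rfl fun i _ => ?_
      ring
    rw [h1, pow_zero, mul_one] at h
    have h0 : e 0 = 0 := by
      have hdvd : b ∣ e 0 := by
        refine ⟨-∑ i ∈ range D, e (i + 1) * b ^ i, ?_⟩
        linarith
      rcases he 0 with h2 | h2 | h2
      · exact h2
      · rw [h2] at hdvd
        have := Int.le_of_dvd one_pos hdvd
        omega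
      · rw [h2] at hdvd
        have h3 : b ∣ 1 := by simpa using hdvd
        have := Int.le_of_dvd one_pos h3
        omega
    rw [h0, add_zero] at h
    have h2 := (mul_eq_zero.1 h).resolve_left (by omega)
    intro i hi
    rcases i with _ | i
    · exact h0
    · exact ih (fun i => e (i + 1)) (fun i => he _) h2 i (by omega)

/-- the powers of `b` -/
theorem pow_diss {N : ℕ} [NeZero N] (b D : ℕ) (hb : 2 ≤ b) (γ : ZMod N)
    (hγ : b ^ D < addOrderOf γ) :
    Diss ((range D).image fun i => (b : ZMod N) ^ i) γ ∧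
      ((range D).image fun i => (b : ZMod N) ^ i).card = D := by
  have hle : addOrderOf γ ≤ N := by
    have := addOrderOf_le_card_univ (x := γ)
    rwa [ZMod.card] at this
  have hlt : ∀ i, i < D → b ^ i < N := fun i hi =>
    lt_of_lt_of_le (lt_of_le_of_lt (Nat.pow_le_pow_right (by omega) hi.le) hγ) hle
  have hinj : Set.InjOn (fun i => (b : ZMod N) ^ i) (range D : Set ℕ) := by
    intro i hi j hj hij
    rw [coe_range, Set.mem_Iio] at hi hj
    have h1 : ((b ^ i : ℕ) : ZMod N) = ((b ^ j : ℕ) : ZMod N) := by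
      push_cast
      exact hij
    rw [ZMod.natCast_eq_natCast_iff', Nat.mod_eq_of_lt (hlt i hi), Nat.mod_eq_of_lt (hlt j hj)] at h1
    exact Nat.pow_right_injective hb h1
  refine ⟨?_, ?_⟩
  · intro e he h0
    rw [sum_image hinj] at h0
    set X : ℤ := ∑ i ∈ range D, e ((b : ZMod N) ^ i) * (b : ℤ) ^ i with hX
    have h1 : X • γ = 0 := by
      rw [zsmul_eq_mul, hX, ← h0]
      push_cast
      rw [sum_mul]
      refine sum_congr rfl fun i _ => ?_
      ring
    have h2 : (addOrderOf γ : ℤ) ∣ X := addOrderOf_dvd_iff_zsmul_eq_zero.2 h1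
    have h3 : |X| < addOrderOf γ := by
      have h4 : |X| ≤ ∑ i ∈ range D, (b : ℤ) ^ i := by
        rw [hX]
        refine (abs_sum_le_sum_abs _ _).trans (sum_le_sum fun i _ => ?_)
        rw [abs_mul, abs_pow, Nat.abs_cast]
        have h5 : |e ((b : ZMod N) ^ i)| ≤ 1 := by
          rcases he ((b : ZMod N) ^ i) with h | h | h <;> rw [h] <;> norm_num
        calc |e ((b : ZMod N) ^ i)| * (b : ℤ) ^ i ≤ 1 * (b : ℤ) ^ i :=
              mul_le_mul_of_nonneg_right h5 (by positivity)
          _ = _ := one_mul _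
      have h6 : ∑ i ∈ range D, b ^ i < b ^ D := Nat.geomSum_lt hb (fun k hk => mem_range.1 hk)
      have h7 : ∑ i ∈ range D, (b : ℤ) ^ i < (b : ℤ) ^ D := by exact_mod_cast h6
      have h8 : ((b ^ D : ℕ) : ℤ) < addOrderOf γ := by exact_mod_cast hγ
      push_cast at h8
      linarith
    have h4 : X = 0 := Int.eq_zero_of_abs_lt_dvd h2 h3
    intro v hv
    obtain ⟨i, hi, rfl⟩ := mem_image.1 hv
    exact int_indep b (by exact_mod_cast hb) D (fun i => e ((b : ZMod N) ^ i)) (fun i => he _) h4 i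
      (mem_range.1 hi)
  · rw [card_image_of_injOn hinj, card_range]

theorem Pres.pow {N : ℕ} [NeZero N] {A : Finset (ZMod N)} {v : ZMod N} (h : Pres A v) (i : ℕ) :
    Pres A (v ^ i) := by
  induction i with
  | zero => exact ⟨by simp, fun a => by simp⟩
  | succ i ih =>
    refine ⟨h.1.pow _, fun a => ?_⟩
    rw [pow_succ, mul_assoc, ih.2, h.2]

/-- every element of order larger than `b ^ D` has a rich orbit -/
theorem rich_dil {N : ℕ} [NeZero N] (A : Finset (ZMod N)) (b : ℕ) (hb : 2 ≤ b)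
    (hbA : Pres A (b : ZMod N)) (x : ℝ) (hx : 0 ≤ x) (N₁ : ℕ)
    (hN : ∀ d : ℕ, d ∣ N → d ∣ N₁ ∨ (x + 1) * Real.log b < Real.log d) (y γ : ZMod N)
    (hy : ∃ z, y = N₁ * z) (hγ : γ * y ≠ 0) :
    ∃ V : Finset (ZMod N), (∀ v ∈ V, Pres A v) ∧ Diss V γ ∧ x ≤ V.card := by
  obtain ⟨z, rfl⟩ := hy
  have hb0 : (0 : ℝ) < b := by
    have : (0 : ℕ) < b := by omega
    exact_mod_cast this
  have hlb : 0 < Real.log b := Real.log_pos (by
    have : (2 : ℝ) ≤ b := by exact_mod_cast hb
    linarith)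
  have hd : addOrderOf γ ∣ N := by
    have := addOrderOf_dvd_card (x := γ)
    rwa [ZMod.card] at this
  have h1 : ¬ addOrderOf γ ∣ N₁ := by
    intro h
    apply hγ
    have h2 : N₁ • γ = 0 := addOrderOf_dvd_iff_nsmul_eq_zero.1 h
    rw [nsmul_eq_mul] at h2
    calc γ * (N₁ * z) = (N₁ * γ) * z := by ring
      _ = 0 := by rw [h2, zero_mul]
  have h2 := (hN _ hd).resolve_left h1
  set D := ⌈x⌉₊ with hD
  have hDx : (D : ℝ) ≤ x + 1 := (Nat.ceil_lt_add_one hx).le
  have hord0 : 0 < addOrderOf γ := addOrderOf_pos γ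
  have h3 : b ^ D < addOrderOf γ := by
    have h4 : Real.log ((b : ℝ) ^ D) < Real.log (addOrderOf γ) := by
      rw [Real.log_pow]
      refine lt_of_le_of_lt (mul_le_mul_of_nonneg_right hDx hlb.le) h2
    have h5 := (Real.log_lt_log_iff (by positivity) (by exact_mod_cast hord0)).1 h4
    exact_mod_cast h5
  obtain ⟨h4, h5⟩ := pow_diss b D hb γ h3
  refine ⟨_, ?_, h4, ?_⟩
  · intro v hv
    obtain ⟨i, _, rfl⟩ := mem_image.1 hv
    exact hbA.pow i
  · rw [h5]
    exact Nat.le_ceil x

open Polynomial in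
/-- the resultant of a polynomial with coefficients `0, 1, -1` with the cyclotomic polynomial -/
theorem res_cyc (m : ℕ) (hm : 0 < m) (h : ℤ[X]) (h0 : h ≠ 0) (hdeg : h.natDegree < m.totient)
    (hc : ∀ i, |h.coeff i| ≤ 1) :
    resultant (cyclotomic m ℤ) h ≠ 0 ∧
      |resultant (cyclotomic m ℤ) h| ≤ (m.totient : ℤ) ^ m.totient := by
  haveI : NeZero ((m : ℕ) : ℂ) := ⟨by exact_mod_cast hm.ne'⟩
  set φ : ℤ →+* ℂ := Int.castRingHom ℂ with hφ
  have hφi : Function.Injective φ := Int.cast_injective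
  have h1 : ((resultant (cyclotomic m ℤ) h : ℤ) : ℂ) =
      ∏ ζ ∈ primitiveRoots m ℂ, (h.map φ).eval ζ := by
    have h2 := resultant_map_map (cyclotomic m ℤ) h (cyclotomic m ℤ).natDegree h.natDegree φ
    have h3 : ((resultant (cyclotomic m ℤ) h : ℤ) : ℂ) =
        φ (resultant (cyclotomic m ℤ) h (cyclotomic m ℤ).natDegree h.natDegree) := rfl
    rw [h3, ← h2, map_cyclotomic]
    have h4 : (cyclotomic m ℤ).natDegree = (cyclotomic m ℂ).natDegree := by
      rw [natDegree_cyclotomic, natDegree_cyclotomic]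
    rw [h4, resultant_eq_prod_eval (cyclotomic m ℂ) (h.map φ) h.natDegree natDegree_map_le
      (IsAlgClosed.splits _), (cyclotomic.monic m ℂ).leadingCoeff, one_pow, one_mul,
      cyclotomic.roots_eq_primitiveRoots_val]
    rfl
  have hev : ∀ ζ ∈ primitiveRoots m ℂ, (h.map φ).eval ζ ≠ 0 ∧
      ‖(h.map φ).eval ζ‖ ≤ m.totient := by
    intro ζ hζ
    have hp := (mem_primitiveRoots hm).1 hζ
    constructor
    · intro he
      have h2 : aeval ζ h = 0 := by
        rw [aeval_def, ← eval_map]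
        exact he
      have h3 : IsIntegral ℤ ζ := hp.isIntegral hm
      have h4 := minpoly.isIntegrallyClosed_dvd h3 h2
      rw [← cyclotomic_eq_minpoly hp hm] at h4
      have h5 := natDegree_le_of_dvd h4 h0
      rw [natDegree_cyclotomic] at h5
      omega
    · rw [eval_map, eval₂_eq_sum_range]
      refine (norm_sum_le _ _).trans ?_
      have h2 : ∀ i ∈ range (h.natDegree + 1), ‖φ (h.coeff i) * ζ ^ i‖ ≤ 1 := by
        intro i _
        rw [norm_mul, norm_pow, hp.norm'_eq_one hm.ne', one_pow, mul_one]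
        have h3 : ‖φ (h.coeff i)‖ = |(h.coeff i : ℝ)| := by
          show ‖((h.coeff i : ℤ) : ℂ)‖ = _
          rw [Complex.norm_intCast]
        rw [h3]
        exact_mod_cast hc i
      refine (sum_le_sum h2).trans ?_
      rw [sum_const, card_range, nsmul_eq_mul, mul_one]
      exact_mod_cast hdeg
  constructor
  · intro he
    rw [he, Int.cast_zero] at h1
    obtain ⟨ζ, hζ, h2⟩ := prod_eq_zero_iff.1 h1.symm
    exact (hev ζ hζ).1 h2
  · have h2 : ‖((resultant (cyclotomic m ℤ) h : ℤ) : ℂ)‖ ≤ (m.totient : ℝ) ^ m.totient := by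
      rw [h1, norm_prod]
      calc ∏ ζ ∈ primitiveRoots m ℂ, ‖(h.map φ).eval ζ‖ ≤
            ∏ ζ ∈ primitiveRoots m ℂ, (m.totient : ℝ) :=
            prod_le_prod (fun _ _ => norm_nonneg _) fun ζ hζ => (hev ζ hζ).2
        _ = (m.totient : ℝ) ^ m.totient := by
            rw [prod_const, Complex.card_primitiveRoots]
    rw [Complex.norm_intCast] at h2
    exact_mod_cast h2

open Polynomial in
/-- no relation with coefficients `0, 1, -1` between the powers of a root of unity -/
theorem cyc_rel {N : ℕ} [NeZero N] (m : ℕ) (hm : 0 < m) (g : ZMod N)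
    (hg : aeval g (cyclotomic m ℤ) = 0) (γ : ZMod N)
    (hp : m.totient ^ m.totient < addOrderOf γ) (h : ℤ[X]) (hdeg : h.natDegree < m.totient)
    (hc : ∀ i, |h.coeff i| ≤ 1) (hγ : aeval g h * γ = 0) : h = 0 := by
  by_contra hz
  have htot : 0 < m.totient := Nat.totient_pos.2 hm
  obtain ⟨hr0, hr⟩ := res_cyc m hm h hz hdeg hc
  obtain ⟨a, c, -, -, hac⟩ := exists_mul_add_mul_eq_C_resultant (cyclotomic m ℤ) h
    (m := (cyclotomic m ℤ).natDegree) (n := h.natDegree) le_rfl le_rfl
    (Or.inl (by rw [natDegree_cyclotomic]; omega))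
  have h2 := congrArg (aeval g) hac
  rw [map_add, map_mul, map_mul, hg, zero_mul, zero_add, aeval_C, eq_intCast] at h2
  have h3 : (resultant (cyclotomic m ℤ) h : ℤ) • γ = 0 := by
    rw [zsmul_eq_mul]
    have e : ((resultant (cyclotomic m ℤ) h : ℤ) : ZMod N) = aeval g h * aeval g c := h2.symm
    rw [e]
    calc aeval g h * aeval g c * γ = (aeval g h * γ) * aeval g c := by ring
      _ = 0 := by rw [hγ, zero_mul]
  have h4 : (addOrderOf γ : ℤ) ∣ resultant (cyclotomic m ℤ) h :=
    addOrderOf_dvd_iff_zsmul_eq_zero.2 h3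
  have h5 : |resultant (cyclotomic m ℤ) h| < addOrderOf γ :=
    lt_of_le_of_lt hr (by exact_mod_cast hp)
  exact hr0 (Int.eq_zero_of_abs_lt_dvd h4 h5)

open Polynomial in
/-- the powers of a root of unity -/
theorem cyc_diss {N : ℕ} [NeZero N] (m : ℕ) (hm : 0 < m) (g : ZMod N)
    (hg : aeval g (cyclotomic m ℤ) = 0) (γ : ZMod N)
    (hp : m.totient ^ m.totient < addOrderOf γ) :
    Diss ((range m.totient).image fun i => g ^ i) γ ∧
      ((range m.totient).image fun i => g ^ i).card = m.totient := by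
  have htot : 0 < m.totient := Nat.totient_pos.2 hm
  have key : ∀ f : ℕ → ℤ, (∀ i, f i = 0 ∨ f i = 1 ∨ f i = -1) →
      (∑ i ∈ range m.totient, (f i : ZMod N) * g ^ i) * γ = 0 → ∀ i < m.totient, f i = 0 := by
    intro f hf h0
    obtain ⟨h, hh⟩ : ∃ h : ℤ[X], h = ∑ i ∈ range m.totient, C (f i) * X ^ i := ⟨_, rfl⟩
    have hcoef : ∀ i, h.coeff i = if i < m.totient then f i else 0 := by
      intro i
      rw [hh, finset_sum_coeff]
      simp only [coeff_C_mul, coeff_X_pow, mul_ite, mul_one, mul_zero]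
      rw [sum_ite_eq (range m.totient) i]
      simp only [mem_range]
    have hz : h = 0 := by
      by_contra hz
      refine hz (cyc_rel m hm g hg γ hp h ?_ ?_ ?_)
      · by_contra hcon
        push Not at hcon
        have h2 := hcoef h.natDegree
        rw [if_neg (by omega)] at h2
        exact hz (leadingCoeff_eq_zero.1 h2)
      · intro i
        rw [hcoef]
        split_ifs
        · rcases hf i with h | h | h <;> rw [h] <;> norm_num
        · norm_num
      · rw [← h0, hh, map_sum]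
        congr 1
        refine sum_congr rfl fun i _ => ?_
        simp
    intro i hi
    have h2 := hcoef i
    rw [hz, coeff_zero, if_pos hi] at h2
    exact h2.symm
  have hinj : Set.InjOn (fun i => g ^ i) (range m.totient : Set ℕ) := by
    intro i hi j hj hij
    rw [coe_range, Set.mem_Iio] at hi hj
    by_contra hne
    have h1 := key (fun k => if k = i then 1 else if k = j then -1 else 0) (fun k => by
      by_cases h : k = i
      · simp [h]
      · by_cases h' : k = j
        · simp [h', Ne.symm hne]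
        · simp [h, h']) (by
      have h2 : ∑ k ∈ range m.totient,
          (((if k = i then 1 else if k = j then -1 else 0 : ℤ)) : ZMod N) * g ^ k =
          ∑ k ∈ range m.totient, ((if k = i then g ^ i else 0) - (if k = j then g ^ j else 0)) := by
        refine sum_congr rfl fun k _ => ?_
        by_cases h : k = i
        · subst h
          simp [hne]
        · by_cases h' : k = j
          · subst h'
            simp [h]
          · simp [h, h']
      rw [h2, sum_sub_distrib, sum_ite_eq' _ i, sum_ite_eq' _ j, if_pos (mem_range.2 hi),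
        if_pos (mem_range.2 hj)]
      have h3 : g ^ i - g ^ j = 0 := sub_eq_zero.2 hij
      rw [h3, zero_mul]) i hi
    simp at h1
  refine ⟨?_, by rw [card_image_of_injOn hinj, card_range]⟩
  intro e he h0
  rw [sum_image hinj] at h0
  intro v hv
  obtain ⟨i, hi, rfl⟩ := mem_image.1 hv
  refine key (fun i => e (g ^ i)) (fun i => he _) ?_ i (mem_range.1 hi)
  rw [← h0, sum_mul]
  exact sum_congr rfl fun i _ => by ring

open Polynomial in
theorem pow_eq_one_of_cyc {N : ℕ} [NeZero N] (m : ℕ) (hm : 0 < m) (g : ZMod N)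
    (hg : aeval g (cyclotomic m ℤ) = 0) : g ^ m = 1 := by
  obtain ⟨q, hq⟩ := cyclotomic.dvd_X_pow_sub_one m ℤ
  have h1 := congrArg (aeval g) hq
  rw [map_mul, hg, zero_mul] at h1
  simp only [map_sub, map_pow, aeval_X, map_one] at h1
  exact sub_eq_zero.1 h1

open Polynomial in
/-- every element of order larger than `φ(m) ^ φ(m)` has a rich orbit -/
theorem rich_cyc {N : ℕ} [NeZero N] (A : Finset (ZMod N)) (m : ℕ) (hm : 0 < m) (g : ZMod N)
    (hg : aeval g (cyclotomic m ℤ) = 0) (hgA : ∀ a : ZMod N, g * a ∈ A ↔ a ∈ A) (N₁ : ℕ)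
    (hN : ∀ d : ℕ, d ∣ N → d ∣ N₁ ∨ m.totient ^ m.totient < d) (y γ : ZMod N)
    (hy : ∃ z, y = N₁ * z) (hγ : γ * y ≠ 0) :
    ∃ V : Finset (ZMod N), (∀ v ∈ V, Pres A v) ∧ Diss V γ ∧ V.card = m.totient := by
  obtain ⟨z, rfl⟩ := hy
  have hd : addOrderOf γ ∣ N := by
    have := addOrderOf_dvd_card (x := γ)
    rwa [ZMod.card] at this
  have h1 : ¬ addOrderOf γ ∣ N₁ := by
    intro h
    apply hγ
    have h2 : N₁ • γ = 0 := addOrderOf_dvd_iff_nsmul_eq_zero.1 h
    rw [nsmul_eq_mul] at h2
    calc γ * (N₁ * z) = (N₁ * γ) * z := by ring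
      _ = 0 := by rw [h2, zero_mul]
  have h2 := (hN _ hd).resolve_left h1
  obtain ⟨h3, h4⟩ := cyc_diss m hm g hg γ h2
  have hu : IsUnit g := IsUnit.of_pow_eq_one (pow_eq_one_of_cyc m hm g hg) hm.ne'
  refine ⟨_, ?_, h3, h4⟩
  intro v hv
  obtain ⟨i, _, rfl⟩ := mem_image.1 hv
  exact Pres.pow ⟨hu, hgA⟩ i

end Pool.Agent.Run7.h933.INVS
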