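import Pool.Agent.Run7.h933.INVS.Main
import Pool.Agent.Run7.h933.INVS.Dil
import Pool.Agent.N142.CD.RAD

/-!
# Sumsets of sets invariant under dilations (helper933): final forms
-/

set_option autoImplicit false
set_option linter.all false

namespace Pool.Agent.Run7.h933.INVS

open Finset Pool.Agent.N142.CD Pool.Agent.TH858
open scoped Pointwise

/-- every nonzero frequency has an orbit with `D` dissociated elements -/
def Rich {N : ℕ} (A : Finset (ZMod N)) (D : ℝ) : Prop :=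
  ∀ γ : ZMod N, γ ≠ 0 → ∃ V : Finset (ZMod N), (∀ v ∈ V, Pres A v) ∧ Diss V γ ∧ D ≤ V.card

/-- `log (2 N / |A|)` -/
noncomputable def lx {N : ℕ} (A : Finset (ZMod N)) : ℝ := Real.log (2 * N / A.card)

/-- the size of the orbits in the theorem for `|A + A| ≥ (1 - η) N` -/
noncomputable def lw {N : ℕ} (A : Finset (ZMod N)) (η : ℝ) : ℝ :=
  (lx A * Real.log (2 * N / (η * A.card)) / η) ^ 2

theorem lx_ge {N : ℕ} [NeZero N] (A : Finset (ZMod N)) (hA : A.Nonempty) : Real.log 2 ≤ lx A := by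
  have hA0 : (0 : ℝ) < A.card := by exact_mod_cast hA.card_pos
  have hAN : (A.card : ℝ) ≤ N := by
    have := card_le_univ A
    rw [ZMod.card] at this
    exact_mod_cast this
  unfold lx
  refine Real.log_le_log (by norm_num) ?_
  rw [le_div_iff₀ hA0]
  linarith

theorem lw_ge {N : ℕ} [NeZero N] (A : Finset (ZMod N)) (hA : A.Nonempty) (η : ℝ) (hη : 0 < η)
    (hη1 : η ≤ 1) : lx A ^ 4 ≤ lw A η := by
  have hA0 : (0 : ℝ) < A.card := by exact_mod_cast hA.card_pos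
  have hN0 : (0 : ℝ) < N := by exact_mod_cast NeZero.pos N
  have h1 := lx_ge A hA
  have hlog2 := Real.log_two_gt_d9
  have h2 : lx A ≤ Real.log (2 * N / (η * A.card)) := by
    refine Real.log_le_log (by positivity) ?_
    refine div_le_div_of_nonneg_left (by positivity) (by positivity) ?_
    nlinarith
  have h3 : lx A * lx A ≤ lx A * Real.log (2 * N / (η * A.card)) / η := by
    rw [le_div_iff₀ hη]
    have : 0 ≤ lx A * lx A := by nlinarith
    nlinarith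
  have h4 : (lx A * lx A) ^ 2 ≤ lw A η := pow_le_pow_left₀ (by nlinarith) h3 2
  calc lx A ^ 4 = (lx A * lx A) ^ 2 := by ring
    _ ≤ _ := h4

theorem lw_half {N : ℕ} [NeZero N] (A : Finset (ZMod N)) (hA : A.Nonempty) :
    lw A (1 / 2) ≤ 16 * lx A ^ 4 := by
  have hA0 : (0 : ℝ) < A.card := by exact_mod_cast hA.card_pos
  have hN0 : (0 : ℝ) < N := by exact_mod_cast NeZero.pos N
  have h1 := lx_ge A hA
  have hlog2 := Real.log_two_gt_d9
  have h2 : Real.log (2 * N / (1 / 2 * A.card)) ≤ 2 * lx A := by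
    have e : (2 * N / (1 / 2 * A.card) : ℝ) = 2 * (2 * N / A.card) := by
      field_simp
    rw [e, Real.log_mul (by norm_num) (by positivity)]
    unfold lx at h1 ⊢
    linarith
  have h20 : 0 ≤ Real.log (2 * N / (1 / 2 * A.card)) := by
    have e : (2 * N / (1 / 2 * A.card) : ℝ) = 2 * (2 * N / A.card) := by
      field_simp
    rw [e, Real.log_mul (by norm_num) (by positivity)]
    unfold lx at h1
    linarith
  unfold lw
  have h3 : lx A * Real.log (2 * N / (1 / 2 * A.card)) / (1 / 2) ≤ 4 * (lx A * lx A) := by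
    rw [div_le_iff₀ (by norm_num)]
    nlinarith
  calc (lx A * Real.log (2 * N / (1 / 2 * A.card)) / (1 / 2)) ^ 2 ≤ (4 * (lx A * lx A)) ^ 2 := by
        refine pow_le_pow_left₀ ?_ h3 2
        have : 0 ≤ lx A := by linarith
        positivity
    _ = 16 * lx A ^ 4 := by ring

theorem lw_quarter {N : ℕ} [NeZero N] (A : Finset (ZMod N)) (hA : A.Nonempty) :
    lw A (1 / 4) ≤ 144 * lx A ^ 4 := by
  have hA0 : (0 : ℝ) < A.card := by exact_mod_cast hA.card_pos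
  have hN0 : (0 : ℝ) < N := by exact_mod_cast NeZero.pos N
  have h1 := lx_ge A hA
  have hlog2 := Real.log_two_gt_d9
  have e : (2 * N / (1 / 4 * A.card) : ℝ) = 4 * (2 * N / A.card) := by
    field_simp
  have h4 : Real.log 4 = 2 * Real.log 2 := by
    rw [show (4 : ℝ) = 2 ^ 2 by norm_num, Real.log_pow]; norm_num
  have h2 : Real.log (2 * N / (1 / 4 * A.card)) ≤ 3 * lx A := by
    rw [e, Real.log_mul (by norm_num) (by positivity), h4]
    unfold lx at h1 ⊢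
    linarith
  have h20 : 0 ≤ Real.log (2 * N / (1 / 4 * A.card)) := by
    rw [e, Real.log_mul (by norm_num) (by positivity), h4]
    unfold lx at h1
    linarith
  unfold lw
  have h3 : lx A * Real.log (2 * N / (1 / 4 * A.card)) / (1 / 4) ≤ 12 * (lx A * lx A) := by
    rw [div_le_iff₀ (by norm_num)]
    nlinarith
  calc (lx A * Real.log (2 * N / (1 / 4 * A.card)) / (1 / 4)) ^ 2 ≤ (12 * (lx A * lx A)) ^ 2 := by
        refine pow_le_pow_left₀ ?_ h3 2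
        have : 0 ≤ lx A := by linarith
        positivity
    _ = 144 * lx A ^ 4 := by ring

/-- the pointwise forms -/
theorem pointwise : ∃ C : ℝ, 17 ≤ C ∧ ∀ (N : ℕ) [NeZero N] (A : Finset (ZMod N)), A.Nonempty →
    (∀ η : ℝ, 0 < η → η ≤ 1 → (∀ γ : ZMod N, γ ≠ 0 → ∃ V : Finset (ZMod N),
      (∀ v ∈ V, Pres A v) ∧ Diss V γ ∧ C * lw A η ≤ V.card) → (1 - η) * N ≤ (A + A).card) ∧
    (∀ y : ZMod N, (∀ γ : ZMod N, γ * y ≠ 0 → ∃ V : Finset (ZMod N), (∀ v ∈ V, Pres A v) ∧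
      Diss V γ ∧ C * lx A ^ 4 ≤ V.card) →
      ∃ a₁ ∈ A, ∃ a₂ ∈ A, ∃ a₃ ∈ A, ∃ a₄ ∈ A, y = a₁ + a₂ - a₃ - a₄) := by
  obtain ⟨C, hC, h⟩ := gn_lower'
  refine ⟨16 * C, by linarith, fun N _ A hA => ⟨fun η hη hη1 hr => ?_, fun y hr => ?_⟩⟩
  · refine card_lower A η hA fun y => h N A η hA hη hη1 y fun γ hγ => ?_
    obtain ⟨V, h1, h2, h3⟩ := hr γ (fun h => hγ (by rw [h, zero_mul]))
    refine ⟨V, h1, h2, le_trans ?_ h3⟩
    have : 0 ≤ lw A η := by unfold lw; positivity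
    show C * lw A η ≤ _
    nlinarith
  · refine mem_of_pos A y ?_
    have h1 := h N A (1 / 2) hA (by norm_num) (by norm_num) y fun γ hγ => by
      obtain ⟨V, h1, h2, h3⟩ := hr γ hγ
      refine ⟨V, h1, h2, le_trans ?_ h3⟩
      have := lw_half A hA
      show C * lw A (1 / 2) ≤ _
      nlinarith
    linarith

/-- a Bohr set inside the multiples of `N₁` -/
theorem bohr_sub {N : ℕ} [NeZero N] (N₁ R n : ℕ) (hN : N₁ ∣ N) (hR : 1 ≤ R)
    (hn : N₁ < 4 * R ^ (n + 1)) (y : ZMod N)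
    (hy : ∀ γ ∈ (range (n + 1)).image (fun i => ((R ^ i * (N / N₁) : ℕ) : ZMod N)),
      CB.nn (γ * y) ≤ 1 / (4 * R)) : ∃ z, y = N₁ * z := by
  have hNpos : 0 < N := NeZero.pos N
  have hN1 : 0 < N₁ := Nat.pos_of_dvd_of_pos hN hNpos
  obtain ⟨M, hM⟩ := hN
  have hM0 : 0 < M := by
    rcases Nat.eq_zero_or_pos M with h | h
    · rw [h] at hM; omega
    · exact h
  have hdiv : N / N₁ = M := by rw [hM, Nat.mul_div_cancel_left _ hN1]
  rw [hdiv] at hy
  have h1 := rad ((M : ZMod N) * y) R hR n fun i hi => by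
    have h2 := hy _ (mem_image.2 ⟨i, mem_range.2 hi, rfl⟩)
    have e : ((R ^ i * M : ℕ) : ZMod N) * y = ((R ^ i : ℕ) : ZMod N) * ((M : ZMod N) * y) := by
      push_cast
      ring
    rwa [e] at h2
  -- the value
  have hval : ((M : ZMod N) * y) = ((M * y.val : ℕ) : ZMod N) := by
    push_cast
    rw [ZMod.natCast_zmod_val]
  set c : ZMod N := (M : ZMod N) * y with hc
  have hcval : c.val = (M * y.val) % N := by rw [hval, ZMod.val_natCast]
  have hMdvd : M ∣ c.val := by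
    have hMN : M ∣ N := ⟨N₁, by rw [hM]; ring⟩
    rw [hcval]
    exact (Nat.dvd_mod_iff hMN).2 (Dvd.intro _ rfl)
  obtain ⟨u, hu⟩ := hMdvd
  have hfrac : (c.val : ℝ) / N = u / N₁ := by
    rw [hu, hM]
    have : (M : ℝ) ≠ 0 := by exact_mod_cast hM0.ne'
    have : (N₁ : ℝ) ≠ 0 := by exact_mod_cast hN1.ne'
    push_cast
    field_simp
  have h2 : |(u : ℝ) / N₁ - ((round ((u : ℝ) / N₁) : ℤ) : ℝ)| ≤ 1 / (4 * R ^ (n + 1)) := by
    rw [← hfrac]
    exact h1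
  set r : ℤ := round ((u : ℝ) / N₁) with hr
  have hN1r : (0 : ℝ) < N₁ := by exact_mod_cast hN1
  have h3 : |((u : ℤ) - r * N₁ : ℤ)| < 1 := by
    have h4 : |(((u : ℤ) - r * N₁ : ℤ) : ℝ)| < 1 := by
      have e : (((u : ℤ) - r * N₁ : ℤ) : ℝ) = N₁ * ((u : ℝ) / N₁ - (r : ℝ)) := by
        push_cast
        field_simp
      rw [e, abs_mul, abs_of_pos hN1r]
      have h5 : (N₁ : ℝ) < 4 * R ^ (n + 1) := by exact_mod_cast hn
      have h6 : (0 : ℝ) < 4 * (R : ℝ) ^ (n + 1) := by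
        have : (0 : ℝ) < R := by exact_mod_cast hR
        positivity
      calc (N₁ : ℝ) * |(u : ℝ) / N₁ - (r : ℝ)| ≤ N₁ * (1 / (4 * R ^ (n + 1))) :=
            mul_le_mul_of_nonneg_left h2 hN1r.le
        _ = N₁ / (4 * R ^ (n + 1)) := by ring
        _ < 1 := by rw [div_lt_one h6]; exact h5
    exact_mod_cast h4
  have h4 : (u : ℤ) - r * N₁ = 0 := Int.abs_lt_one_iff.1 h3
  have h5 : (N₁ : ℤ) ∣ u := ⟨r, by linarith⟩
  have h6 : N₁ ∣ u := by exact_mod_cast h5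
  have hc0 : c = 0 := by
    rw [← ZMod.val_eq_zero]
    obtain ⟨w, hw⟩ := h6
    have h7 : c.val = N * w := by rw [hu, hw, hM]; ring
    have h8 := ZMod.val_lt c
    rcases Nat.eq_zero_or_pos w with h | h
    · rw [h7, h, mul_zero]
    · exfalso
      rw [h7] at h8
      have : N * 1 ≤ N * w := Nat.mul_le_mul_left _ h
      omega
  rw [hc0] at hcval
  rw [ZMod.val_zero] at hcval
  have h7 : N ∣ M * y.val := Nat.dvd_of_mod_eq_zero hcval.symm
  have h8 : N₁ ∣ y.val := by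
    obtain ⟨k, hk⟩ := h7
    refine ⟨k, Nat.eq_of_mul_eq_mul_left hM0 ?_⟩
    rw [hk]
    calc N * k = (N₁ * M) * k := by rw [← hM]
      _ = M * (N₁ * k) := by ring
  obtain ⟨z, hz⟩ := h8
  refine ⟨(z : ZMod N), ?_⟩
  rw [← ZMod.natCast_zmod_val y, hz]
  push_cast
  ring

/-- sets invariant under multiplication by an integer `b ≥ 2` -/
theorem dilation : ∃ C : ℝ, 1 ≤ C ∧ ∀ (N : ℕ) [NeZero N] (A : Finset (ZMod N)) (b : ℕ),
    A.Nonempty → 2 ≤ b → Nat.Coprime b N → (∀ a : ZMod N, (b : ZMod N) * a ∈ A ↔ a ∈ A) →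
    (∀ η : ℝ, 0 < η → η ≤ 1 → (∀ d : ℕ, d ∣ N → d = 1 ∨ C * lw A η * Real.log b ≤ Real.log d) →
      (1 - η) * N ≤ (A + A).card) ∧
    (∀ N₁ : ℕ, (∀ d : ℕ, d ∣ N → d ∣ N₁ ∨ C * lx A ^ 4 * Real.log b ≤ Real.log d) → ∀ z : ZMod N,
      ∃ a₁ ∈ A, ∃ a₂ ∈ A, ∃ a₃ ∈ A, ∃ a₄ ∈ A, N₁ * z = a₁ + a₂ - a₃ - a₄) := by
  obtain ⟨C, hC, h⟩ := pointwise
  refine ⟨C + 10, by linarith, ?_⟩
  intro N _ A b hA hb hcop hbA
  obtain ⟨h1, h2⟩ := h N A hA
  have hx := lx_ge A hA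
  have hlog2 := Real.log_two_gt_d9
  have hx4 : (0.23 : ℝ) ≤ lx A ^ 4 := by
    calc (0.23 : ℝ) ≤ 0.6931471803 ^ 4 := by norm_num
      _ ≤ lx A ^ 4 := pow_le_pow_left₀ (by norm_num) (by linarith) 4
  have hlb : 0 < Real.log b := Real.log_pos (by
    have : (2 : ℝ) ≤ b := by exact_mod_cast hb
    linarith)
  have hP : Pres A (b : ZMod N) := ⟨(ZMod.isUnit_iff_coprime b N).2 hcop, hbA⟩
  refine ⟨fun η hη hη1 hd => ?_, fun N₁ hd z => ?_⟩
  · have hw := lw_ge A hA η hη hη1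
    refine h1 η hη hη1 fun γ hγ => ?_
    refine rich_dil A b hb hP (C * lw A η) (by nlinarith) 1 (fun d hdN => ?_) 1 γ
      ⟨1, by simp⟩ (by rwa [mul_one])
    rcases hd d hdN with h3 | h3
    · left; rw [h3]
    · right
      refine lt_of_lt_of_le (mul_lt_mul_of_pos_right ?_ hlb) h3
      nlinarith
  · refine h2 _ fun γ hγ => ?_
    refine rich_dil A b hb hP (C * lx A ^ 4) (by nlinarith) N₁ (fun d hdN => ?_) _ γ ⟨z, rfl⟩ hγ
    rcases hd d hdN with h3 | h3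
    · left; exact h3
    · right
      refine lt_of_lt_of_le (mul_lt_mul_of_pos_right ?_ hlb) h3
      nlinarith

/-- the conclusion of Q1 from a subgroup of moderate index -/
theorem concl {N : ℕ} [NeZero N] (A : Finset (ZMod N)) (N₁ : ℕ) (B : ℝ) (hA : A.Nonempty)
    (hα : (A.card : ℝ) / N ≤ 1 / 2) (hN₁ : N₁ ∣ N) (hB : 0 ≤ B)
    (h1 : ∀ z : ZMod N, ∃ a₁ ∈ A, ∃ a₂ ∈ A, ∃ a₃ ∈ A, ∃ a₄ ∈ A, N₁ * z = a₁ + a₂ - a₃ - a₄)
    (hlogN : Real.log N₁ ≤
      B * (Real.log (N / A.card) * Real.log (2 + Real.log (N / A.card)))) :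
    ∃ (Γ : Finset (ZMod N)) (ε : ℝ), 0 < ε ∧ (Γ.card : ℝ) ≤ (3 + B) * Real.log (N / A.card) ∧
      1 / (22 * Real.log (N / A.card)) ≤ ε ∧ ∀ y : ZMod N, (∀ γ ∈ Γ, CB.nn (γ * y) ≤ ε) →
        ∃ a₁ ∈ A, ∃ a₂ ∈ A, ∃ a₃ ∈ A, ∃ a₄ ∈ A, y = a₁ + a₂ - a₃ - a₄ := by
  have hA0 : (0 : ℝ) < A.card := by exact_mod_cast hA.card_pos
  have hN0 : (0 : ℝ) < N := by exact_mod_cast NeZero.pos N
  have hlog2 := Real.log_two_gt_d9
  have hlog2' := Real.log_two_lt_d9
  set x := Real.log (N / A.card) with hx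
  have hx2 : Real.log 2 ≤ x := by
    refine Real.log_le_log (by norm_num) ?_
    rw [le_div_iff₀ hA0]
    rw [div_le_iff₀ hN0] at hα
    linarith
  -- parameters
  set R : ℕ := ⌈2 + x⌉₊ with hR
  have hRx : 2 + x ≤ R := Nat.le_ceil _
  have hR2 : (R : ℝ) ≤ 3 + x := by
    have := Nat.ceil_lt_add_one (by linarith : 0 ≤ 2 + x)
    rw [← hR] at this
    linarith
  have hR0 : (0 : ℝ) < R := by linarith
  have hR1 : 1 ≤ R := by exact_mod_cast (by linarith : (1 : ℝ) ≤ R)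
  have hlR : 0 < Real.log (2 + x) := Real.log_pos (by linarith)
  have hN1pos : 0 < N₁ := Nat.pos_of_dvd_of_pos hN₁ (NeZero.pos N)
  have hN1r : (0 : ℝ) < N₁ := by exact_mod_cast hN1pos
  set n : ℕ := ⌊B * x⌋₊ with hn
  have hn1 : B * x < n + 1 := Nat.lt_floor_add_one _
  have hn2 : (n : ℝ) ≤ B * x := Nat.floor_le (mul_nonneg hB (by linarith))
  have hpow : N₁ < 4 * R ^ (n + 1) := by
    have h2 : Real.log N₁ ≤ Real.log ((R : ℝ) ^ (n + 1)) := by
      rw [Real.log_pow]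
      calc Real.log N₁ ≤ B * (x * Real.log (2 + x)) := hlogN
        _ = (B * x) * Real.log (2 + x) := by ring
        _ ≤ ((n + 1 : ℕ) : ℝ) * Real.log R := by
            refine mul_le_mul ?_ (Real.log_le_log (by linarith) hRx) hlR.le (by positivity)
            push_cast
            exact hn1.le
    have h3 := (Real.log_le_log_iff hN1r (by positivity)).1 h2
    have h4 : (N₁ : ℝ) < 4 * (R : ℝ) ^ (n + 1) := by
      have : (0 : ℝ) < (R : ℝ) ^ (n + 1) := by positivity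
      linarith
    exact_mod_cast h4
  refine ⟨(range (n + 1)).image (fun i => ((R ^ i * (N / N₁) : ℕ) : ZMod N)), 1 / (4 * R),
    by positivity, ?_, ?_, ?_⟩
  · have h2 : (((range (n + 1)).image (fun i => ((R ^ i * (N / N₁) : ℕ) : ZMod N))).card : ℝ) ≤
        n + 1 := by
      have := card_image_le (s := range (n + 1)) (f := fun i => ((R ^ i * (N / N₁) : ℕ) : ZMod N))
      rw [card_range] at this
      exact_mod_cast this
    nlinarith
  · rw [one_div_le_one_div (by nlinarith) (by positivity)]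
    linarith
  · intro y hy
    obtain ⟨z, rfl⟩ := bohr_sub N₁ R n hN₁ hR1 hpow y hy
    exact h1 z

open Polynomial in
/-- sets invariant under multiplication by a root of unity -/
theorem roots : ∃ C : ℝ, 1 ≤ C ∧ ∀ (N : ℕ) [NeZero N] (A : Finset (ZMod N)) (g : ZMod N)
    (m : ℕ), A.Nonempty → 0 < m → aeval g (cyclotomic m ℤ) = 0 →
    (∀ a : ZMod N, g * a ∈ A ↔ a ∈ A) →
    (∀ η : ℝ, 0 < η → η ≤ 1 → (∀ d : ℕ, d ∣ N → d = 1 ∨ m.totient ^ m.totient < d) →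
      C * lw A η ≤ m.totient → (1 - η) * N ≤ (A + A).card) ∧
    (∀ N₁ : ℕ, (∀ d : ℕ, d ∣ N → d ∣ N₁ ∨ m.totient ^ m.totient < d) →
      C * lx A ^ 4 ≤ m.totient → ∀ z : ZMod N,
      ∃ a₁ ∈ A, ∃ a₂ ∈ A, ∃ a₃ ∈ A, ∃ a₄ ∈ A, N₁ * z = a₁ + a₂ - a₃ - a₄) := by
  obtain ⟨C, hC, h⟩ := pointwise
  refine ⟨C, by linarith, ?_⟩
  intro N _ A g m hA hm hg hgA
  obtain ⟨h1, h2⟩ := h N A hA
  refine ⟨fun η hη hη1 hN hd => h1 η hη hη1 fun γ hγ => ?_, fun N₁ hN hd z => ?_⟩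
  · obtain ⟨V, h3, h4, h5⟩ := rich_cyc A m hm g hg hgA 1 (fun d hdN => by
      rcases hN d hdN with h | h
      · left; rw [h]
      · right; exact h) 1 γ ⟨1, by simp⟩ (by rwa [mul_one])
    exact ⟨V, h3, h4, by rw [h5]; exact hd⟩
  · refine h2 _ fun γ hγ => ?_
    obtain ⟨V, h3, h4, h5⟩ := rich_cyc A m hm g hg hgA N₁ hN _ γ ⟨z, rfl⟩ hγ
    exact ⟨V, h3, h4, by rw [h5]; exact hd⟩

end Pool.Agent.Run7.h933.INVS
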