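import Pool.Agent.Run7.h933.INVS.Core

/-!
# Sumsets of sets invariant under dilations (helper933): the parameters, iterated sumsets
-/

set_option autoImplicit false
set_option linter.all false

namespace Pool.Agent.Run7.h933.INVS

open Finset Pool.Agent.N142.CD
open scoped Pointwise

/-- the lower bound for `g` -/
theorem gn_lower : ∃ C : ℝ, 17 ≤ C ∧ ∀ (N : ℕ) [NeZero N] (A : Finset (ZMod N)) (K η : ℝ),
    A.Nonempty → 1 ≤ K → 0 < η → η ≤ 1 → ((A + A).card : ℝ) ≤ K * A.card → ∀ y : ZMod N,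
    (∀ γ : ZMod N, γ * y ≠ 0 → ∃ V : Finset (ZMod N), (∀ v ∈ V, Pres A v) ∧ Diss V γ ∧
      C * (Real.log (2 * N / A.card) + (Real.log (2 * K) * Real.log (2 * K / η) / η) ^ 2) ≤
        V.card) →
    1 - η ≤ gn A (A + A) y := by
  obtain ⟨C₀, hC₀, h⟩ := main_lemma
  refine ⟨17 + 288 * C₀, by linarith, ?_⟩
  intro N _ A K η hA hK hη hη1 hAA y hrich
  have hA0 : (0 : ℝ) < A.card := by exact_mod_cast hA.card_pos
  have hN0 : (0 : ℝ) < N := by exact_mod_cast NeZero.pos N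
  have hAN : (A.card : ℝ) ≤ N := by
    have := card_le_univ A
    rw [ZMod.card] at this
    exact_mod_cast this
  have hlog2 := Real.log_two_gt_d9
  have hlog2' := Real.log_two_lt_d9
  have h4 : Real.log 4 = 2 * Real.log 2 := by
    rw [show (4 : ℝ) = 2 ^ 2 by norm_num, Real.log_pow]; norm_num
  have hq1 : 2 ≤ 2 * K / η := by
    rw [le_div_iff₀ hη]
    nlinarith
  set L := Real.log (2 * K / η) with hL
  have hL2 : Real.log 2 ≤ L := Real.log_le_log (by norm_num) hq1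
  have h4K : Real.log (4 * K / η) = Real.log 2 + L := by
    rw [hL, ← Real.log_mul (by norm_num) (by positivity)]
    congr 1
    ring
  have hq0 : 0 < Real.log (4 * K / η) / Real.log 4 := by
    rw [h4, h4K]
    apply div_pos <;> linarith
  set l := ⌈Real.log (4 * K / η) / Real.log 4⌉₊ with hl
  have hl1 : 1 ≤ l := Nat.one_le_iff_ne_zero.2 (Nat.ceil_pos.2 hq0).ne'
  have hl1' : (1 : ℝ) ≤ l := by exact_mod_cast hl1
  have hlpow : 4 * K / η ≤ 4 ^ l := by
    have h1 := Nat.le_ceil (Real.log (4 * K / η) / Real.log 4)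
    rw [div_le_iff₀ (by rw [h4]; linarith)] at h1
    have h2 : Real.log (4 * K / η) ≤ Real.log ((4 : ℝ) ^ l) := by
      rw [Real.log_pow]; exact h1
    exact (Real.log_le_log_iff (by positivity) (by positivity)).1 h2
  have hl3 : (l : ℝ) ≤ 3 * L := by
    have h1 := (Nat.ceil_lt_add_one hq0.le).le
    have h2 : Real.log (4 * K / η) / Real.log 4 ≤ 3 / 2 * L := by
      rw [div_le_iff₀ (by rw [h4]; linarith), h4, h4K]
      nlinarith
    have h3 : 1 ≤ 3 / 2 * L := by linarith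
    linarith
  set l' := ⌈(l : ℝ) / η⌉₊ with hl'
  have hle : (l : ℝ) / η ≤ l' := Nat.le_ceil _
  have hlη : 1 ≤ (l : ℝ) / η := by
    rw [le_div_iff₀ hη]
    linarith
  have hl'1 : 1 ≤ l' := by
    have : (1 : ℝ) ≤ l' := hlη.trans hle
    exact_mod_cast this
  have hl'3 : (l' : ℝ) ≤ 6 * L / η := by
    have h1 := (Nat.ceil_lt_add_one (by positivity : 0 ≤ (l : ℝ) / η)).le
    have h2 : (l : ℝ) / η ≤ 3 * L / η := div_le_div_of_nonneg_right hl3 hη.le
    have h3 : (6 : ℝ) * L / η = 3 * L / η + 3 * L / η := by ring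
    rw [h3]
    linarith
  have hmain := h N A K l l' hA hK hAA hl'1 y fun γ hγ => by
    obtain ⟨V, hV, hd, hc⟩ := hrich γ hγ
    refine ⟨V, hV, hd, lt_of_lt_of_le ?_ hc⟩
    have h1 : Real.log (4 * N / A.card) ≤ 2 * Real.log (2 * N / A.card) := by
      rw [← Nat.cast_ofNat (R := ℝ) (n := 2), ← Real.log_pow]
      refine Real.log_le_log (by positivity) ?_
      have h2 : 1 ≤ (N : ℝ) / A.card := by
        rw [le_div_iff₀ hA0]; linarith
      have h3 : (4 : ℝ) * N / A.card = 4 * (N / A.card) := by ring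
      have h5 : (((2 : ℕ) : ℝ) * N / A.card) ^ 2 = 4 * (N / A.card) ^ 2 := by
        push_cast
        ring
      rw [h3, h5]
      nlinarith
    have h2 : Real.log 2 ≤ Real.log (2 * N / A.card) := by
      refine Real.log_le_log (by norm_num) ?_
      rw [le_div_iff₀ hA0]
      linarith
    have h3 : (l' : ℝ) ^ 2 ≤ (6 * L / η) ^ 2 :=
      pow_le_pow_left₀ (Nat.cast_nonneg _) hl'3 2
    have h5 : (l' : ℝ) ^ 2 * Real.log (2 * K) ^ 2 ≤
        36 * (Real.log (2 * K) * L / η) ^ 2 := by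
      calc (l' : ℝ) ^ 2 * Real.log (2 * K) ^ 2 ≤ (6 * L / η) ^ 2 * Real.log (2 * K) ^ 2 :=
            mul_le_mul_of_nonneg_right h3 (by positivity)
        _ = _ := by ring
    have h6 : C₀ * ((l' : ℝ) ^ 2 * Real.log (2 * K) ^ 2) ≤
        C₀ * (36 * (Real.log (2 * K) * L / η) ^ 2) := mul_le_mul_of_nonneg_left h5 hC₀.le
    have h7 : 0 ≤ (Real.log (2 * K) * L / η) ^ 2 := by positivity
    have h8 : 0 ≤ C₀ * Real.log (2 * N / A.card) := by
      apply mul_nonneg hC₀.le; linarith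
    nlinarith
  have hK0 : (0 : ℝ) < K := by linarith
  have e1 : (l : ℝ) / (4 * l') ≤ η / 2 := by
    have h0 : (0 : ℝ) < l' := by exact_mod_cast hl'1
    rw [div_le_iff₀ (by positivity)]
    rw [div_le_iff₀ hη] at hle
    nlinarith
  have e2 : 2 * K / 4 ^ l ≤ η / 2 := by
    rw [div_le_iff₀ (by positivity)]
    rw [div_le_iff₀ hη] at hlpow
    linarith
  linarith

/-- `C x ^ 2 (x + log (1/η)) ^ 2 / η ^ 2` is enough -/
theorem gn_lower' : ∃ C : ℝ, 17 ≤ C ∧ ∀ (N : ℕ) [NeZero N] (A : Finset (ZMod N)) (η : ℝ),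
    A.Nonempty → 0 < η → η ≤ 1 → ∀ y : ZMod N,
    (∀ γ : ZMod N, γ * y ≠ 0 → ∃ V : Finset (ZMod N), (∀ v ∈ V, Pres A v) ∧ Diss V γ ∧
      C * (Real.log (2 * N / A.card) * Real.log (2 * N / (η * A.card)) / η) ^ 2 ≤ V.card) →
    1 - η ≤ gn A (A + A) y := by
  obtain ⟨C, hC, h⟩ := gn_lower
  refine ⟨5 * C, by linarith, ?_⟩
  intro N _ A η hA hη hη1 y hrich
  have hA0 : (0 : ℝ) < A.card := by exact_mod_cast hA.card_pos
  have hN0 : (0 : ℝ) < N := by exact_mod_cast NeZero.pos N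
  have hAN : (A.card : ℝ) ≤ N := by
    have := card_le_univ A
    rw [ZMod.card] at this
    exact_mod_cast this
  have hSN : ((A + A).card : ℝ) ≤ N := by
    have := card_le_univ (A + A)
    rw [ZMod.card] at this
    exact_mod_cast this
  have hlog2 := Real.log_two_gt_d9
  set x := Real.log (2 * N / A.card) with hx
  have hx2 : Real.log 2 ≤ x := by
    refine Real.log_le_log (by norm_num) ?_
    rw [le_div_iff₀ hA0]
    linarith
  have e1 : 2 * ((N : ℝ) / A.card) = 2 * N / A.card := by ring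
  have e2 : 2 * (N : ℝ) / A.card / η = 2 * N / (η * A.card) := by
    rw [div_div, mul_comm η]
  have hy2 : x ≤ Real.log (2 * N / (η * A.card)) := by
    refine Real.log_le_log (by positivity) ?_
    refine div_le_div_of_nonneg_left (by positivity) (by positivity) ?_
    nlinarith
  refine h N A (N / A.card) η hA (by rw [le_div_iff₀ hA0]; linarith) hη hη1
    (by rw [div_mul_cancel₀ _ hA0.ne']; exact hSN) y fun γ hγ => ?_
  obtain ⟨V, hV, hd, hc⟩ := hrich γ hγ
  refine ⟨V, hV, hd, le_trans ?_ hc⟩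
  rw [e1, e2, ← hx]
  set w := Real.log (2 * N / (η * A.card)) with hw
  have h1 : x * x ≤ x * w / η := by
    rw [le_div_iff₀ hη]
    have : 0 ≤ x * x := by nlinarith
    nlinarith
  have h2 : (x * x) ^ 2 ≤ (x * w / η) ^ 2 := pow_le_pow_left₀ (by nlinarith) h1 2
  have h3 : x ≤ 4 * (x * x) ^ 2 := by
    have h5 : (0.6931471803 : ℝ) ≤ x := by linarith
    have h6 : (0.33 : ℝ) ≤ x ^ 3 := by
      calc (0.33 : ℝ) ≤ 0.6931471803 ^ 3 := by norm_num
        _ ≤ x ^ 3 := pow_le_pow_left₀ (by norm_num) h5 3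
    have h7 : (x * x) ^ 2 = x ^ 3 * x := by ring
    rw [h7]
    nlinarith
  nlinarith

/-- all elements -/
theorem card_lower {N : ℕ} [NeZero N] (A : Finset (ZMod N)) (η : ℝ) (hA : A.Nonempty)
    (h : ∀ y, 1 - η ≤ gn A (A + A) y) : (1 - η) * N ≤ (A + A).card := by
  rw [← sum_gn A (A + A) hA]
  calc (1 - η) * N = ∑ y : ZMod N, (1 - η) := by
        rw [sum_const, nsmul_eq_mul, card_univ, ZMod.card]; ring
    _ ≤ _ := sum_le_sum fun y _ => h y

theorem mem_of_pos {N : ℕ} [NeZero N] (A : Finset (ZMod N)) (y : ZMod N)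
    (h : 0 < gn A (A + A) y) : ∃ a₁ ∈ A, ∃ a₂ ∈ A, ∃ a₃ ∈ A, ∃ a₄ ∈ A, y = a₁ + a₂ - a₃ - a₄ := by
  obtain ⟨x, hx, a, ha, hs⟩ := FOU.gn_pos A (A + A) y h
  obtain ⟨b, hb, c, hc, hbc⟩ := mem_add.1 hs
  refine ⟨b, hb, c, hc, x, hx, a, ha, ?_⟩
  rw [hbc]
  ring

theorem four_sum {N : ℕ} [NeZero N] (A : Finset (ZMod N)) (h : (N : ℝ) / 2 < (A + A).card)
    (y : ZMod N) : ∃ a₁ ∈ A, ∃ a₂ ∈ A, ∃ a₃ ∈ A, ∃ a₄ ∈ A, y = a₁ + a₂ + a₃ + a₄ := by
  classical
  have h1 : ¬ Disjoint (A + A) ((A + A).image fun s => y - s) := by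
    intro hd
    have h2 : ((A + A) ∪ (A + A).image fun s => y - s).card =
        (A + A).card + ((A + A).image fun s => y - s).card := card_union_of_disjoint hd
    have h3 : ((A + A).image fun s => y - s).card = (A + A).card :=
      card_image_of_injective _ sub_right_injective
    have h4 := card_le_univ ((A + A) ∪ (A + A).image fun s => y - s)
    rw [h2, h3, ZMod.card] at h4
    have h5 : ((A + A).card : ℝ) + (A + A).card ≤ N := by exact_mod_cast h4
    linarith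
  rw [not_disjoint_iff] at h1
  obtain ⟨s, hs, hs'⟩ := h1
  obtain ⟨t, ht, hts⟩ := mem_image.1 hs'
  obtain ⟨a, ha, b, hb, hab⟩ := mem_add.1 hs
  obtain ⟨c, hc, d, hd, hcd⟩ := mem_add.1 ht
  refine ⟨a, ha, b, hb, c, hc, d, hd, ?_⟩
  have : y = s + t := by rw [← hts]; ring
  rw [this, ← hab, ← hcd]
  ring

/-- the Fourier coefficients of `A` -/
theorem coeff_small {N : ℕ} [NeZero N] (A : Finset (ZMod N)) (hA : A.Nonempty) (γ : ZMod N)
    (V : Finset (ZMod N)) (hV : ∀ v ∈ V, Pres A v) (hd : Diss V γ)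
    (hc : 8 * Real.log (4 * N / A.card) < V.card) :
    ‖FOU.hh A γ‖ < (A.card : ℝ) / 2 :=
  spec_trivial hA hV hd hc

/-- iterated sumsets -/
theorem iter_sum {N : ℕ} [NeZero N] (A : Finset (ZMod N)) (hA : A.Nonempty)
    (h : ∀ γ : ZMod N, γ ≠ 0 → ‖FOU.hh A γ‖ < (A.card : ℝ) / 2) (k : ℕ)
    (hk : (N : ℝ) ≤ 2 ^ k * A.card) (y : ZMod N) :
    ∃ a : Fin (k + 2) → ZMod N, (∀ i, a i ∈ A) ∧ ∑ i, a i = y := by
  classical
  by_contra hcon
  push Not at hcon
  have hA0 : (0 : ℝ) < A.card := by exact_mod_cast hA.card_pos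
  have hN0 : (0 : ℝ) < N := by exact_mod_cast NeZero.pos N
  have h0 : ∀ γ : ZMod N, FOU.hh A γ ^ (k + 2) * ψ (-(γ * y)) =
      ∑ a ∈ Fintype.piFinset (fun _ : Fin (k + 2) => A), (ψ (γ * (∑ i, a i - y)) : ℂ) := by
    intro γ
    have h1 : FOU.hh A γ ^ (k + 2) =
        ∑ s ∈ Fintype.piFinset (fun _ : Fin (k + 2) => A), ∏ i, (ψ (γ * s i) : ℂ) := by
      unfold FOU.hh
      rw [← prod_univ_sum (fun _ : Fin (k + 2) => A) (fun _ s => (ψ (γ * s) : ℂ)), prod_const,
        card_univ, Fintype.card_fin]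
    rw [h1, sum_mul]
    refine sum_congr rfl fun s _ => ?_
    have h5 : ∀ (I : Finset (Fin (k + 2))), (ψ (∑ i ∈ I, γ * s i) : ℂ) =
        ∏ i ∈ I, (ψ (γ * s i) : ℂ) := by
      intro I
      induction I using Finset.induction_on with
      | empty => rw [sum_empty, prod_empty]; exact AddChar.map_zero_eq_one _
      | insert i I hi ih => rw [sum_insert hi, prod_insert hi, FOU.psi_add, ih]
    rw [← h5 univ, ← FOU.psi_add]
    congr 1
    rw [mul_sub, mul_sum]
    ring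
  have h1 : ∑ γ : ZMod N, FOU.hh A γ ^ (k + 2) * (ψ (-(γ * y)) : ℂ) = 0 := by
    simp_rw [h0]
    rw [sum_comm]
    refine sum_eq_zero fun a ha => ?_
    rw [FOU.ortho, if_neg]
    intro h2
    exact hcon a (Fintype.mem_piFinset.1 ha) (sub_eq_zero.1 h2)
  rw [← add_sum_erase univ _ (mem_univ (0 : ZMod N))] at h1
  have h2 : FOU.hh A 0 ^ (k + 2) * (ψ (-((0 : ZMod N) * y)) : ℂ) = (A.card : ℂ) ^ (k + 2) := by
    have h3 : FOU.hh A 0 = A.card := by
      unfold FOU.hh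
      rw [sum_congr rfl (g := fun _ => (1 : ℂ)) fun a _ => by
        rw [zero_mul]; exact AddChar.map_zero_eq_one _]
      simp
    have h4 : (ψ (-((0 : ZMod N) * y)) : ℂ) = 1 := by
      rw [zero_mul, neg_zero]; exact AddChar.map_zero_eq_one _
    rw [h3, h4, mul_one]
  rw [h2] at h1
  have h3 : (A.card : ℝ) ^ (k + 2) ≤ ∑ γ ∈ univ.erase (0 : ZMod N), ‖FOU.hh A γ‖ ^ (k + 2) := by
    have h4 : (A.card : ℂ) ^ (k + 2) =
        -∑ γ ∈ univ.erase (0 : ZMod N), FOU.hh A γ ^ (k + 2) * (ψ (-(γ * y)) : ℂ) :=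
      eq_neg_of_add_eq_zero_left h1
    have h5 : ‖(A.card : ℂ) ^ (k + 2)‖ = (A.card : ℝ) ^ (k + 2) := by
      rw [norm_pow, Complex.norm_natCast]
    rw [← h5, h4, norm_neg]
    refine (norm_sum_le _ _).trans (sum_le_sum fun γ _ => ?_)
    rw [norm_mul, norm_pow, FOU.psi_norm, mul_one]
  have h4 : ∑ γ ∈ univ.erase (0 : ZMod N), ‖FOU.hh A γ‖ ^ (k + 2) ≤
      ((A.card : ℝ) / 2) ^ k * (N * A.card - (A.card : ℝ) ^ 2) := by
    have h5 : ∑ γ ∈ univ.erase (0 : ZMod N), ‖FOU.hh A γ‖ ^ 2 = N * A.card - (A.card : ℝ) ^ 2 := by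
      have h6 := FOU.parseval A
      rw [← add_sum_erase univ _ (mem_univ (0 : ZMod N))] at h6
      have h7 : ‖FOU.hh A 0‖ = A.card := by
        unfold FOU.hh
        rw [sum_congr rfl (g := fun _ => (1 : ℂ)) fun a _ => by
          rw [zero_mul]; exact AddChar.map_zero_eq_one _]
        simp
      rw [h7] at h6
      linarith
    rw [← h5, mul_sum]
    refine sum_le_sum fun γ hγ => ?_
    rw [pow_add]
    refine mul_le_mul_of_nonneg_right ?_ (by positivity)
    exact pow_le_pow_left₀ (norm_nonneg _) (h γ (ne_of_mem_erase hγ)).le k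
  have h5 := h3.trans h4
  have h6 : ((A.card : ℝ) / 2) ^ k * (N * A.card - (A.card : ℝ) ^ 2) <
      ((A.card : ℝ) / 2) ^ k * (N * A.card) := by
    refine mul_lt_mul_of_pos_left ?_ (by positivity)
    have : (0 : ℝ) < (A.card : ℝ) ^ 2 := by positivity
    linarith
  have h7 : ((A.card : ℝ) / 2) ^ k * (N * A.card) ≤ (A.card : ℝ) ^ (k + 2) := by
    calc ((A.card : ℝ) / 2) ^ k * (N * A.card) ≤ ((A.card : ℝ) / 2) ^ k * ((2 ^ k * A.card) * A.card) := by
          refine mul_le_mul_of_nonneg_left ?_ (by positivity)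
          exact mul_le_mul_of_nonneg_right hk hA0.le
      _ = (A.card : ℝ) ^ (k + 2) := by
          rw [div_pow]
          field_simp
          try ring
  linarith

end Pool.Agent.Run7.h933.INVS
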